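import Pool.Agent.H.MP_1d2ce7_al.A

namespace Pool.Agent.H.MP_a41846_al

open FreeGroup Pool.Agent.H.MP_1d2ce7_al

variable {α : Type} [DecidableEq α]

def fl (t : α × Bool) : α × Bool := (t.1, !t.2)

omit [DecidableEq α] in
@[simp] theorem fl_fl (t : α × Bool) : fl (fl t) = t := by simp [fl]

omit [DecidableEq α] in
@[simp] theorem fl_1 (t : α × Bool) : (fl t).1 = t.1 := rfl

omit [DecidableEq α] in
theorem fl_ne (t : α × Bool) : fl t ≠ t := by
  obtain ⟨a, b⟩ := t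
  cases b <;> simp [fl]

omit [DecidableEq α] in
theorem fst_eq {s t : α × Bool} (h : s.1 = t.1) : s = t ∨ s = fl t := by
  obtain ⟨a, b⟩ := t
  obtain ⟨c, d⟩ := s
  simp only at h
  subst h
  cases b <;> cases d <;> simp [fl]

omit [DecidableEq α] in
theorem mk_fl (t : α × Bool) : mk [fl t] = (mk [t] : FreeGroup α)⁻¹ := by rw [inv_mk]; rfl

def hs (S : Set (α × Bool)) (u : FreeGroup α) : Set (FreeGroup α) :=
  {g | ∃ t ∈ S, g * u⁻¹ ∈ cone [t]}

theorem hs1 {t : α × Bool} {u g : FreeGroup α} : g ∈ hs {t} u ↔ g * u⁻¹ ∈ cone [t] := by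
  simp [hs]

theorem cu {s t : α × Bool} {g : FreeGroup α} (h : g ∈ cone [s]) (h' : g ∈ cone [t]) : s = t := by
  obtain ⟨V, e⟩ := h
  obtain ⟨V', e'⟩ := h'
  simpa using (List.append_inj' (e.trans e'.symm) rfl).2

theorem cex {g : FreeGroup α} (h : g ≠ 1) : ∃ t, g ∈ cone [t] := by
  rcases g.toWord.eq_nil_or_concat with e | ⟨V, t, e⟩
  · exact absurd (toWord_eq_nil_iff.1 e) h
  · exact ⟨t, V, by rw [e]; simp⟩

theorem one_not (t : α × Bool) : (1 : FreeGroup α) ∉ cone [t] := by simp [cone]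

theorem self_cone {s t : α × Bool} : mk [s] ∈ cone [t] ↔ s = t := by
  have : mk [s] ∈ cone [s] := by
    show _ <:+ _
    rw [tw IsReduced.singleton]
  exact ⟨cu this, fun e => e ▸ this⟩

theorem cb {s t : α × Bool} {g : FreeGroup α} (h : g ≠ 1) (h' : mk [s] * g ≠ 1) :
    g ∈ cone [t] ↔ mk [s] * g ∈ cone [t] := by
  have : ∀ {s : α × Bool} {g : FreeGroup α}, mk [s] * g ≠ 1 → g ∈ cone [t] →
      mk [s] * g ∈ cone [t] := by
    intro s g h' a
    by_cases e : g.toWord = [t]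
    · rcases tw_lt s g with e' | e'
      · show _ <:+ _
        rw [e', e]; exact List.suffix_cons _ _
      · rw [e] at e'
        exact absurd (toWord_eq_nil_iff.1 (List.cons.inj e').2.symm) h'
    · exact step s a e
  refine ⟨this h', fun a => ?_⟩
  have e : mk [fl s] * (mk [s] * g) = g := by rw [mk_fl, inv_mul_cancel_left]
  have := this (s := fl s) (by rwa [e]) a
  rwa [e] at this

theorem cb1 {s t : α × Bool} {g : FreeGroup α} (h : ¬ (g = 1 ∧ s = t))
    (h' : ¬ (mk [s] * g = 1 ∧ s = fl t)) : g ∈ cone [t] ↔ mk [s] * g ∈ cone [t] := by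
  by_cases a : g = 1
  · subst a
    rw [mul_one, self_cone]
    simpa [one_not] using h
  by_cases b : mk [s] * g = 1
  · rw [b, (mul_eq_one_iff_inv_eq.1 b).symm, ← mk_fl, self_cone]
    simp only [one_not, iff_false]
    rintro rfl
    exact h' ⟨b, by simp⟩
  exact cb a b

theorem chr {H : Set (FreeGroup α)} {t : α × Bool} (h1 : 1 ∉ H) (h2 : mk [t] ∈ H)
    (h3 : ∀ s g, ¬ (g = 1 ∧ s = t) → ¬ (mk [s] * g = 1 ∧ s = fl t) →
      (g ∈ H ↔ mk [s] * g ∈ H)) (g : FreeGroup α) : g ∈ H ↔ g ∈ cone [t] := by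
  rw [← mk_toWord (x := g)]
  induction g.toWord with
  | nil => rw [← one_eq_mk]; simp [h1, one_not]
  | cons s L ih =>
    rw [show mk (s :: L) = mk [s] * mk L from by rw [mul_mk]; rfl]
    by_cases a : mk L = 1 ∧ s = t
    · rw [a.1, a.2, mul_one]; simp [h2, self_cone]
    by_cases b : mk [s] * mk L = 1 ∧ s = fl t
    · rw [b.1]; simp [h1, one_not]
    rw [← h3 s _ a b, ← cb1 a b, ih]

theorem cpl (t : α × Bool) (u : FreeGroup α) : hs {t} u = (hs {fl t} (mk [t] * u))ᶜ := by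
  ext g
  rw [Set.mem_compl_iff, hs1, hs1, mul_inv_rev, ← mul_assoc]
  refine (chr (H := {g | g * (mk [t])⁻¹ ∉ cone [fl t]}) ?_ ?_ ?_ _).symm
  · show ¬ ¬ _
    rw [one_mul, ← mk_fl]; exact not_not.2 (self_cone.2 rfl)
  · show _ ∉ _
    rw [mul_inv_cancel]; exact one_not _
  · intro s g a b
    simp only [Set.mem_ofPred_eq, mul_assoc]
    refine not_congr (cb1 ?_ ?_)
    · rintro ⟨c, rfl⟩
      exact b ⟨by rw [mul_inv_eq_one.1 c, mk_fl, inv_mul_cancel], rfl⟩
    · rintro ⟨c, d⟩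
      rw [fl_fl] at d
      subst d
      rw [← mul_assoc, mul_inv_eq_one] at c
      exact a ⟨by simpa using c, rfl⟩

theorem hs_cone {t : α × Bool} {u : FreeGroup α} (h : IsReduced (t :: u.toWord)) :
    hs {t} u = cone (t :: u.toWord) := by
  ext g
  rw [hs1]
  constructor
  · rintro ⟨V, e⟩
    have r : IsReduced (V ++ [t] ++ u.toWord) :=
      IsReduced.append_overlap (by rw [e]; exact isReduced_toWord) h (by simp)
    have : g = mk (V ++ [t] ++ u.toWord) := by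
      rw [← mul_mk, e, mk_toWord, mk_toWord, inv_mul_cancel_right]
    show _ <:+ _
    rw [this, tw r]
    exact ⟨V, by simp⟩
  · rintro ⟨V, e⟩
    have r : IsReduced (V ++ [t]) := sub (isReduced_toWord (x := g))
      (List.IsPrefix.isInfix ⟨u.toWord, by rw [← e]; simp⟩)
    have : g * u⁻¹ = mk (V ++ [t]) := by
      rw [mul_inv_eq_iff_eq_mul, ← mk_toWord (x := u), mul_mk, ← mk_toWord (x := g), ← e]
      simp
    show _ <:+ _
    rw [this, tw r]
    exact ⟨V, rfl⟩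

theorem red_cons {s t : α × Bool} {V : List (α × Bool)} (h : IsReduced (s :: V))
    (h' : t ≠ fl s) : IsReduced (t :: s :: V) := by
  rw [isReduced_cons_cons]
  refine ⟨fun e => ?_, h⟩
  rcases fst_eq e with rfl | rfl
  · rfl
  · exact absurd rfl h'

theorem back {v : FreeGroup α} {s : α × Bool} {V : List (α × Bool)} (e : v.toWord = s :: V) :
    hs {fl s} v = (cone (s :: V))ᶜ := by
  have r : IsReduced (s :: V) := e ▸ isReduced_toWord
  have r' : IsReduced V := sub r (List.suffix_cons _ _).isInfix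
  have := hs_cone (t := s) (u := mk V) (by rwa [tw r'])
  rw [tw r', cpl, mul_mk] at this
  rw [← this, compl_compl, ← mk_toWord (x := v), e]
  rfl

theorem geo (S : Set (α × Bool)) {v u : FreeGroup α} (h : v ≠ u) :
    ∃ d, hs S v ⊆ hs {d} u ∨ (hs S v)ᶜ ⊆ hs {d} u := by
  obtain ⟨d, hd⟩ := cex (g := v * u⁻¹) (fun e => h (mul_inv_eq_one.1 e))
  have tr : ∀ (T : Set (α × Bool)) g, g ∈ hs T v ↔ g * u⁻¹ ∈ hs T (v * u⁻¹) := fun T g => by
    simp [hs, mul_assoc]
  obtain ⟨s, V, e⟩ : ∃ s V, (v * u⁻¹).toWord = s :: V :=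
    List.exists_cons_of_ne_nil fun e => by simp [cone, e] at hd
  have sd : ∀ g, g * u⁻¹ ∈ cone (s :: V) → g ∈ hs {d} u := fun g a =>
    hs1.2 (List.IsSuffix.trans (e ▸ hd) a)
  refine ⟨d, ?_⟩
  by_cases c : fl s ∈ S
  · refine Or.inr fun g a => sd g ?_
    by_contra b
    have : g * u⁻¹ ∈ hs {fl s} (v * u⁻¹) := by rw [back e]; exact b
    exact a ⟨fl s, c, hs1.1 ((tr _ g).2 this)⟩
  · refine Or.inl ?_
    rintro g ⟨t, a, b⟩
    have := (tr _ g).1 (hs1.2 b)
    rw [hs_cone (by rw [e]; exact red_cons (e ▸ isReduced_toWord) fun q => c (q ▸ a)), e] at this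
    exact sd g (List.IsSuffix.trans (List.suffix_cons _ _) this)

theorem part {S : Set (α × Bool)} {u g : FreeGroup α} (h : g ∉ hs S u) :
    g = u ∨ g ∈ hs Sᶜ u := by
  by_cases e : g = u
  · exact Or.inl e
  obtain ⟨t, ht⟩ := cex (g := g * u⁻¹) (fun a => e (mul_inv_eq_one.1 a))
  exact Or.inr ⟨t, fun a => h ⟨t, a, ht⟩, ht⟩

theorem disj {S T : Set (α × Bool)} {u g : FreeGroup α} (h : g ∈ hs S u) (h' : g ∈ hs T u) :
    ∃ t ∈ S, t ∈ T := by
  obtain ⟨s, a, b⟩ := h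
  obtain ⟨t, c, d⟩ := h'
  exact ⟨s, a, cu b d ▸ c⟩

theorem hs_fin [Finite α] {S : Set (α × Bool)} {u : FreeGroup α} {X : Set (FreeGroup α)}
    (h : ∀ t ∈ S, (hs {t} u ∩ X).Finite) : (hs S u ∩ X).Finite := by
  refine (Set.Finite.biUnion (Set.toFinite S) h).subset ?_
  rintro g ⟨⟨t, a, b⟩, c⟩
  exact Set.mem_biUnion a ⟨hs1.2 b, c⟩

end Pool.Agent.H.MP_a41846_al
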