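import Pool.Agent.H.MP_a41846_al.A

namespace Pool.Agent.H.MP_a41846_al

open FreeGroup hiding map_mul map_inv map_one
open Pool.Agent.H.MP_1d2ce7_al

variable {α : Type} [DecidableEq α]

open Classical in
noncomputable def ee (A : Set (α × Bool)) (Z : FreeGroup α) (t : α × Bool) : FreeGroup α :=
  if t ∈ A then Z else 1

noncomputable def wh (A : Set (α × Bool)) (i : α) (Z : FreeGroup α) :
    FreeGroup α →* FreeGroup α :=
  lift fun j => if j = i then of j else (ee A Z (j, false))⁻¹ * of j * ee A Z (j, true)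

theorem wh_z (A : Set (α × Bool)) (Z : FreeGroup α) {i : α} {t : α × Bool} (h : t.1 = i) :
    wh A i Z (mk [t]) = mk [t] := by
  obtain ⟨a, b⟩ := t
  have : wh A i Z (of a) = of a := by rw [wh, lift_apply_of, if_pos h]
  cases b
  · rw [show ((a, false) : α × Bool) = fl (a, true) from rfl, mk_fl, map_inv]
    exact congrArg _ this
  · exact this

theorem wh_t (A : Set (α × Bool)) (Z : FreeGroup α) {i : α} {t : α × Bool} (h : t.1 ≠ i) :
    wh A i Z (mk [t]) = (ee A Z (fl t))⁻¹ * mk [t] * ee A Z t := by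
  obtain ⟨a, b⟩ := t
  have : wh A i Z (of a) = (ee A Z (a, false))⁻¹ * of a * ee A Z (a, true) := by
    rw [wh, lift_apply_of, if_neg h]
  cases b
  · rw [show ((a, false) : α × Bool) = fl (a, true) from rfl, mk_fl, map_inv, fl_fl]
    erw [this]
    simp only [mul_inv_rev, inv_inv, mul_assoc]
    rfl
  · exact this

theorem wh_wh (A : Set (α × Bool)) (i : α) {Z Y : FreeGroup α} (h : wh A i Z Y = Y)
    (h' : Y * Z = 1) (x : FreeGroup α) : wh A i Z (wh A i Y x) = x := by
  have e : ∀ t, wh A i Z (ee A Y t) = (ee A Z t)⁻¹ := fun t => by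
    unfold ee
    split_ifs
    · rw [h, eq_inv_iff_mul_eq_one, h']
    · simp
  have : (wh A i Z).comp (wh A i Y) = MonoidHom.id _ := by
    ext j
    show wh A i Z (wh A i Y (mk [(j, true)])) = mk [(j, true)]
    by_cases c : j = i
    · rw [wh_z A Y c, wh_z A Z c]
    · rw [wh_t A Y c, map_mul, map_mul, map_inv, e, e, wh_t A Z c]
      group
  exact DFunLike.congr_fun this x

noncomputable def whA (A : Set (α × Bool)) (z : α × Bool) : MulAut (FreeGroup α) :=
  MonoidHom.toMulEquiv (wh A z.1 (mk [z])) (wh A z.1 (mk [fl z]))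
    (MonoidHom.ext (wh_wh A z.1 (wh_z A _ rfl) (by rw [mk_fl, mul_inv_cancel])))
    (MonoidHom.ext (wh_wh A z.1 (wh_z A _ rfl) (by rw [mk_fl, inv_mul_cancel])))

theorem whA_z (A : Set (α × Bool)) {z t : α × Bool} (h : t.1 = z.1) :
    whA A z (mk [t]) = mk [t] := wh_z A _ h

theorem whA_t (A : Set (α × Bool)) {z t : α × Bool} (h : t.1 ≠ z.1) :
    whA A z (mk [t]) = (ee A (mk [z]) (fl t))⁻¹ * mk [t] * ee A (mk [z]) t := wh_t A _ h

theorem co1 (A : Set (α × Bool)) {z t : α × Bool} (h : t.1 ≠ z.1) (v : FreeGroup α) :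
    hs {t} v = whA A z ⁻¹' hs {t} (ee A (mk [z]) t * whA A z v) := by
  have m : ∀ s : α × Bool, s.1 = z.1 → ∀ g, g ∈ cone [t] ↔ mk [s] * g ∈ cone [t] :=
    fun s e g => cb1 (fun c => h (c.2 ▸ e)) fun c => h (by rw [← e, c.2, fl_1])
  have ez : ∀ d g, ee A (mk [z]) d * g ∈ cone [t] ↔ g ∈ cone [t] := fun d g => by
    unfold ee
    split_ifs
    · exact (m z rfl g).symm
    · rw [one_mul]
  have ez' : ∀ d g, (ee A (mk [z]) d)⁻¹ * g ∈ cone [t] ↔ g ∈ cone [t] := fun d g => by
    rw [← ez d, mul_inv_cancel_left]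
  ext g
  rw [Set.mem_preimage, hs1, hs1, mul_inv_rev, ← mul_assoc, ← map_inv, ← map_mul]
  refine (chr (H := {g | whA A z g * (ee A (mk [z]) t)⁻¹ ∈ cone [t]}) ?_ ?_ ?_ _).symm
  · rw [Set.mem_ofPred_eq, map_one, one_mul, ← mul_one (_)⁻¹, ez']; exact one_not _
  · rw [Set.mem_ofPred_eq, whA_t A h, mul_inv_cancel_right, ez']; exact self_cone.2 rfl
  · intro s g a b
    simp only [Set.mem_ofPred_eq, map_mul, mul_assoc]
    by_cases c : s.1 = z.1
    · rw [whA_z A c]; exact m s c _
    · rw [whA_t A c, mul_assoc, mul_assoc, ez', ← ez s]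
      refine cb1 ?_ ?_
      · rintro ⟨p, rfl⟩
        refine a ⟨(whA A z).injective ?_, rfl⟩
        rw [map_one]
        have := congrArg (fun x => (ee A (mk [z]) s)⁻¹ * x * ee A (mk [z]) s) p
        simpa [mul_assoc] using this
      · rintro ⟨p, rfl⟩
        refine b ⟨(whA A z).injective ?_, rfl⟩
        rw [map_one, map_mul, whA_t A c, fl_fl]
        have := congrArg (fun x => (ee A (mk [z]) t)⁻¹ * x * ee A (mk [z]) t) p
        simpa only [mul_assoc, inv_mul_cancel, mul_one] using this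

theorem one_hs (S : Set (α × Bool)) : (1 : FreeGroup α) ∉ hs S 1 := by simp [hs, one_not]

theorem self_hs {S : Set (α × Bool)} {s : α × Bool} : mk [s] ∈ hs S 1 ↔ s ∈ S := by
  simp only [hs, inv_one, mul_one, Set.mem_ofPred_eq, self_cone, exists_eq_right']

theorem cbN {S : Set (α × Bool)} {s : α × Bool} {g : FreeGroup α} (h : ¬ (g = 1 ∧ s ∈ S))
    (h' : ¬ (mk [s] * g = 1 ∧ fl s ∈ S)) : g ∈ hs S 1 ↔ mk [s] * g ∈ hs S 1 := by
  simp only [hs, inv_one, mul_one, Set.mem_ofPred_eq]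
  exact exists_congr fun t => and_congr_right fun c => cb1 (fun e => h ⟨e.1, e.2 ▸ c⟩)
    fun e => h' ⟨e.1, by rwa [e.2, fl_fl]⟩

theorem co2 {A : Set (α × Bool)} {z : α × Bool} (h : fl z ∈ A) (h' : z ∉ A) (v : FreeGroup α) :
    hs {fl z} v = whA A z ⁻¹' hs A (whA A z v) := by
  have st : ∀ d g, (ee A (mk [z]) d)⁻¹ * g ∈ hs A 1 ↔ g ∈ hs A 1 ∨ (g = 1 ∧ d ∈ A) := fun d g => by
    unfold ee
    split_ifs with c
    · rw [← mk_fl]
      by_cases e : g = 1
      · subst e; rw [mul_one, self_hs]; simp [h, c]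
      · rw [← cbN (fun q => e q.1) (fun q => h' (by simpa using q.2))]; simp [e]
    · simp [c]
  ext g
  have tr : ∀ x y : FreeGroup α, x ∈ hs A y ↔ x * y⁻¹ ∈ hs A 1 := fun x y => by simp [hs]
  rw [Set.mem_preimage, hs1, tr, ← map_inv, ← map_mul]
  refine (chr (H := {g | whA A z g ∈ hs A 1}) ?_ ?_ ?_ _).symm
  · rw [Set.mem_ofPred_eq, map_one]; exact one_hs _
  · rw [Set.mem_ofPred_eq, whA_z A (fl_1 z)]; exact self_hs.2 h
  · intro s g a b
    simp only [Set.mem_ofPred_eq, map_mul]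
    by_cases c : s.1 = z.1
    · rw [whA_z A c]
      refine cbN ?_ ?_
      · rintro ⟨p, q⟩
        rcases fst_eq c with rfl | rfl
        · exact h' q
        · exact a ⟨by simpa using p, rfl⟩
      · rintro ⟨p, q⟩
        rcases fst_eq c with rfl | rfl
        · refine b ⟨(whA A s).injective ?_, by simp⟩
          rw [map_mul, whA_z A c, p, map_one]
        · exact h' (by simpa using q)
    · rw [whA_t A c, mul_assoc, mul_assoc, st,
        ← inv_mul_cancel_left (ee A (mk [z]) s) (whA A z g), st, mul_inv_cancel_left]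
      generalize ee A (mk [z]) s * whA A z g = u
      by_cases p : u = 1
      · subst p
        have : (mk [s] : FreeGroup α) ≠ 1 := fun e => one_not s (e ▸ self_cone.2 rfl)
        simp [one_hs, self_hs, this]
      by_cases q : mk [s] * u = 1
      · rw [q, (mul_eq_one_iff_inv_eq.1 q).symm, ← mk_fl, self_hs]
        have : (mk [fl s] : FreeGroup α) ≠ 1 := fun e => one_not _ (e ▸ self_cone.2 rfl)
        simp [one_hs, this]
      rw [← cbN (fun e => p e.1) fun e => q e.1]
      simp [p, q]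

end Pool.Agent.H.MP_a41846_al
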