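import Pool.Agent.H.MP_a41846_al.B

namespace Pool.Agent.H.MP_a41846_al

open FreeGroup hiding map_mul map_inv map_one
open Pool.Agent.H.MP_1d2ce7_al

variable {α : Type} [DecidableEq α]

def NM {G : Type} (P H : Set G) : Prop := (H ∩ P).Infinite ∧ (H ∩ Pᶜ).Infinite

def Cr {G : Type} (P H : Set G) : Prop := NM P H ∧ NM P Hᶜ

def AI {G : Type} [Group G] (P : Set G) : Prop := ∀ x, {g | ¬ (g ∈ P ↔ x * g ∈ P)}.Finite

def Cl {G : Type} [Group G] (w : G) (P : Set G) : Prop := AI P ∧ ∀ g ∈ P, w * g ∈ P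

def E (P : Set (FreeGroup α)) : Set ((α × Bool) × FreeGroup α) := {p | Cr P (hs {p.1} p.2)}

def Q (w : FreeGroup α) : Prop := ∃ (φ : MulAut (FreeGroup α)) (t : α × Bool), t ∉ (φ w).toWord

section gen
variable {G : Type}

theorem NM.mono {P H K : Set G} (h : NM P H) (e : H ⊆ K) : NM P K :=
  ⟨h.1.mono (Set.inter_subset_inter_left _ e), h.2.mono (Set.inter_subset_inter_left _ e)⟩

theorem NM.cp {P H : Set G} (h : NM P H) : NM Pᶜ H := ⟨h.2, by rw [compl_compl]; exact h.1⟩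

theorem Cr.symm {P H : Set G} (h : Cr P H) : Cr P Hᶜ := ⟨h.2, by rw [compl_compl]; exact h.1⟩

theorem nm_pre (f : G ≃ G) {P H : Set G} : NM (f ⁻¹' P) (f ⁻¹' H) ↔ NM P H := by
  have : ∀ X : Set G, (f ⁻¹' X).Infinite ↔ X.Infinite := fun X =>
    ⟨fun h e => h (e.preimage f.injective.injOn), fun h => h.preimage (by simp)⟩
  rw [NM, NM, ← Set.preimage_compl, ← Set.preimage_inter, ← Set.preimage_inter, this, this]

theorem cr_pre (f : G ≃ G) {P H : Set G} : Cr (f ⁻¹' P) (f ⁻¹' H) ↔ Cr P H := by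
  rw [Cr, Cr, ← Set.preimage_compl, nm_pre, nm_pre]

variable [Group G] {w : G} {P P' : Set G}

theorem Cl.inter (h : Cl w P) (h' : Cl w P') : Cl w (P ∩ P') :=
  ⟨fun x => ((h.1 x).union (h'.1 x)).subset fun g => by
    simp only [Set.mem_ofPred_eq, Set.mem_union, Set.mem_inter_iff]; tauto,
   fun g a => ⟨h.2 g a.1, h'.2 g a.2⟩⟩

theorem Cl.union (h : Cl w P) (h' : Cl w P') : Cl w (P ∪ P') :=
  ⟨fun x => ((h.1 x).union (h'.1 x)).subset fun g => by
    simp only [Set.mem_ofPred_eq, Set.mem_union]; tauto,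
   fun g a => a.imp (h.2 g) (h'.2 g)⟩

theorem Cl.tr (h : Cl w P) (u : G) : Cl w (Equiv.mulRight u ⁻¹' P) :=
  ⟨fun x => ((h.1 x).preimage (Equiv.mulRight u).injective.injOn).subset fun g => by
    simp [mul_assoc], fun g a => by simpa [mul_assoc] using h.2 _ a⟩

theorem Cl.cp (h : Cl w P) : Cl w⁻¹ Pᶜ :=
  ⟨fun x => (h.1 x).subset fun g => by simp only [Set.mem_ofPred_eq, Set.mem_compl_iff]; tauto,
   fun g a b => a (by simpa using h.2 _ b)⟩

theorem Cl.pre {G' : Type} [Group G'] {v : G'} (j : G' →* G) (hj : Function.Injective j)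
    (h : Cl (j v) P) : Cl v (j ⁻¹' P) :=
  ⟨fun x => ((h.1 (j x)).preimage hj.injOn).subset fun g => by simp,
    fun g a => by simpa using h.2 _ a⟩

theorem Cl.pow (h : Cl w P) {g : G} (a : g ∈ P) (n : ℕ) : w ^ n * g ∈ P := by
  induction n with
  | zero => simpa
  | succ n ih => rw [pow_succ', mul_assoc]; exact h.2 _ ih

end gen

theorem Q.aut {w : FreeGroup α} (ψ : MulAut (FreeGroup α)) (h : Q (ψ w)) : Q w :=
  let ⟨φ, t, e⟩ := h; ⟨φ * ψ, t, e⟩

theorem Q.inv {w : FreeGroup α} (h : Q w⁻¹) : Q w := by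
  obtain ⟨φ, t, e⟩ := h
  refine ⟨φ, fl t, fun a => e ?_⟩
  rw [map_inv, toWord_inv, invRev, List.mem_reverse]
  exact List.mem_map.2 ⟨_, a, fl_fl t⟩

theorem far [Finite α] {P : Set (FreeGroup α)} (hb : AI P) : ∃ R, ∀ W : List (α × Bool),
    R < W.length → ∀ g ∈ cone W, (g ∈ P ↔ mk W ∈ P) := by
  obtain ⟨R, hR⟩ := ((Set.finite_iUnion fun t : α × Bool => hb (mk [t])).image
    fun g => g.toWord.length).bddAbove
  suffices ∀ W : List (α × Bool), R < W.length → ∀ V g, g.toWord = V ++ W →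
      (g ∈ P ↔ mk W ∈ P) from ⟨R, fun W hW g ⟨V, e⟩ => this W hW V g e.symm⟩
  intro W hW V
  induction V with
  | nil => intro g e; rw [← List.nil_append W, ← e, mk_toWord]
  | cons t V ih =>
    intro g e
    have r : IsReduced (V ++ W) := sub (isReduced_toWord (x := g))
      (by rw [e]; exact (List.suffix_cons _ _).isInfix)
    have e2 : g = mk [t] * mk (V ++ W) := by rw [mul_mk, ← mk_toWord (x := g), e]; rfl
    rw [← ih _ (tw r), e2]
    by_contra hc
    have := hR ⟨mk (V ++ W), Set.mem_iUnion.2 ⟨t, fun e => hc e.symm⟩, rfl⟩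
    simp only [tw r, List.length_append] at this
    omega

theorem far' [Finite α] {P : Set (FreeGroup α)} (hb : AI P) : ∃ R, ∀ W : List (α × Bool),
    NM P (cone W) → W.length ≤ R := by
  obtain ⟨R, h⟩ := far hb
  refine ⟨R, fun W a => not_lt.1 fun c => ?_⟩
  obtain ⟨g, e, g1⟩ := a.1.nonempty
  obtain ⟨g', e', g2⟩ := a.2.nonempty
  exact g2 ((h _ c g' e').2 ((h _ c g e).1 g1))

theorem ball_fin [Finite α] (R : ℕ) : {u : FreeGroup α | u.toWord.length ≤ R}.Finite :=
  (List.finite_length_le (α × Bool) R).preimage toWord_injective.injOn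

theorem E_fin [Finite α] {P : Set (FreeGroup α)} (hb : AI P) : (E P).Finite := by
  obtain ⟨R, h⟩ := far' hb
  refine (Set.finite_univ.prod (ball_fin R)).subset fun ⟨t, u⟩ a => ⟨trivial, ?_⟩
  show u.toWord.length ≤ R
  replace a : Cr P (hs {t} u) := a
  rcases e : u.toWord with _ | ⟨s, V⟩
  · simp
  by_cases c : t = fl s
  · rw [c, back e] at a
    exact h _ (by simpa using a.2)
  · rw [hs_cone (by rw [e]; exact red_cons (e ▸ isReduced_toWord) c), e] at a
    exact le_trans (by simp) (h _ a.1)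

theorem rep {R : Set (α × Bool)} {u : FreeGroup α} {P P' : Set (FreeGroup α)}
    (h1 : (hs R u ∩ {g | ¬ (g ∈ P' ↔ g ∈ P)}).Finite) (h2 : ¬ NM P' (hs Rᶜ u))
    (h3 : NM P (hs R u)ᶜ) {H : Set (FreeGroup α)} {d : α × Bool}
    (h4 : H ⊆ hs {d} u ∨ Hᶜ ⊆ hs {d} u) (h5 : Cr P' H) : Cr P H := by
  wlog c : H ⊆ hs {d} u generalizing H
  · have := (this (Or.inl (h4.resolve_left c)) h5.symm (h4.resolve_left c)).symm
    rwa [compl_compl] at this
  have m : ∀ T : Set (α × Bool), d ∈ T → H ⊆ hs T u := fun T a g b => ⟨d, a, hs1.1 (c b)⟩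
  by_cases a : d ∈ R
  · refine ⟨⟨fun f => h5.1.1 ((f.union h1).subset fun g b => ?_),
      fun f => h5.1.2 ((f.union h1).subset fun g b => ?_)⟩,
      h3.mono (Set.compl_subset_compl.2 (m R a))⟩
    all_goals
      have := m R a b.1
      simp only [Set.mem_union, Set.mem_inter_iff, Set.mem_compl_iff, Set.mem_ofPred_eq] at b ⊢
      tauto
  · exact absurd (h5.1.mono (m _ a)) h2

theorem hs_tr (S : Set (α × Bool)) (u b : FreeGroup α) :
    hs S u = Equiv.mulRight (u⁻¹ * b) ⁻¹' hs S b := by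
  ext g; simp [hs, mul_assoc]

theorem move [Finite α] {w b : FreeGroup α} {P : Set (FreeGroup α)} {z : α × Bool} (h : Cl w P)
    (hz : (z, b) ∈ E P) (hm : ∀ t ≠ z, ¬ NM P (hs {t} b)) (hi : (hs {fl z} b ∩ Pᶜ).Finite) :
    ∃ (ψ : MulAut (FreeGroup α)) (P' : Set (FreeGroup α)), Cl (ψ w) P' ∧ NM P' Set.univ ∧
      (E P').ncard < (E P).ncard := by
  classical
  let A : Set (α × Bool) := {t | t ≠ z ∧ (hs {t} b ∩ Pᶜ).Finite}
  let B : Set (α × Bool) := {t | t ≠ z ∧ t ∉ A}
  have a1 : fl z ∈ A := ⟨fl_ne z, hi⟩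
  have a2 : z ∉ A := fun e => e.1 rfl
  have fA : (hs A b ∩ Pᶜ).Finite := hs_fin fun t e => e.2
  have fB : (hs B b ∩ P).Finite := hs_fin fun t e => by
    by_contra c
    exact hm t e.1 ⟨c, fun f => e.2 ⟨e.1, f⟩⟩
  let ψ := whA A z
  let En : Set (FreeGroup α) → Set (FreeGroup α) := fun X => {u | Cr X (hs A u)}
  have pre : ∀ X, Cl w X → Cl (ψ.symm w) (ψ.toEquiv ⁻¹' X) := fun X e =>
    Cl.pre ψ.toMonoidHom ψ.injective (by simpa using e)
  have c2 : ∀ X v, (fl z, v) ∈ E (ψ.toEquiv ⁻¹' X) ↔ ψ v ∈ En X := fun X v => by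
    show Cr _ (hs _ v) ↔ _
    rw [co2 a1 a2]
    exact cr_pre ψ.toEquiv
  have fE : (En P).Finite := ((E_fin (pre P h).1).image fun p => ψ p.2).subset fun u e =>
    ⟨(fl z, ψ.symm u), (c2 _ _).2 (by simpa using e), by simp⟩
  obtain ⟨X, ⟨x1, x2, x3, x4⟩, mn⟩ := (measure fun X => (En X).ncard).wf.has_min
    {X | Cl w X ∧ NM X Set.univ ∧ E X ⊆ E P ∧ En X ⊆ En P}
    ⟨P, h, hz.1.mono (Set.subset_univ _), subset_rfl, subset_rfl⟩
  have key : ∀ u ∈ En X, (z, u) ∈ E X := by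
    intro u hu
    by_contra hc
    replace hu : Cr X (hs A u) := hu
    have n1 : ¬ NM X (hs {z} u) := fun e => hc ⟨e, hu.1.mono fun g p q => by
      obtain ⟨t, p1, p2⟩ := disj p q
      exact p1.1 p2⟩
    let Y := Equiv.mulRight (u⁻¹ * b) ⁻¹' P
    have yA : (hs A u ∩ Yᶜ).Finite := by
      rw [hs_tr A u b]; exact (fA.preimage (Equiv.mulRight (u⁻¹ * b)).injective.injOn :)
    have yB : (hs B u ∩ Y).Finite := by
      rw [hs_tr B u b]; exact (fB.preimage (Equiv.mulRight (u⁻¹ * b)).injective.injOn :)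
    have pt : ∀ g, g = u ∨ g ∈ hs A u ∨ g ∈ hs B u ∨ g ∈ hs {z} u := fun g => by
      rcases part (S := ∅) (u := u) (g := g) (by simp [hs]) with e | ⟨t, -, e⟩
      · exact Or.inl e
      by_cases p : t = z
      · exact Or.inr (Or.inr (Or.inr ⟨t, p, e⟩))
      by_cases q : t ∈ A
      · exact Or.inr (Or.inl ⟨t, q, e⟩)
      · exact Or.inr (Or.inr (Or.inl ⟨t, ⟨p, q⟩, e⟩))
    have dAB : ∀ g, g ∈ hs A u → g ∉ hs B u := fun g p q => by
      obtain ⟨t, p1, p2⟩ := disj p q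
      exact p2.2 p1
    have fin : ∀ (R : Set (α × Bool)) X', Cl w X' → NM X' Set.univ → ¬ Cr X' (hs A u) →
        (hs R u ∩ {g | ¬ (g ∈ X' ↔ g ∈ X)}).Finite → ¬ NM X' (hs Rᶜ u) →
        NM X (hs R u)ᶜ → False := by
      intro R X' p1 p2 p3 p4 p5 p6
      have s1 : E X' ⊆ E X := fun ⟨t, v⟩ e => by
        by_cases c : v = u
        · subst c; exact rep p4 p5 p6 (Or.inl subset_rfl) e
        · obtain ⟨d, hd⟩ := geo {t} c; exact rep p4 p5 p6 hd e
      have s2 : En X' ⊆ En X := fun v e => by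
        by_cases c : v = u
        · subst c; exact absurd e p3
        · obtain ⟨d, hd⟩ := geo A c; exact rep p4 p5 p6 hd e
      exact mn X' ⟨p1, p2, s1.trans x3, s2.trans x4⟩
        (Set.ncard_lt_ncard ⟨s2, fun e => p3 (e hu)⟩ (fE.subset x4))
    have cB : ∀ g, g ∈ hs Bᶜ u → g ∉ hs B u := fun g p q => by
      obtain ⟨t, p1, p2⟩ := disj p q
      exact p1 p2
    have cA : ∀ g, g ∈ hs Aᶜ u → g ∉ hs A u := fun g p q => by
      obtain ⟨t, p1, p2⟩ := disj p q
      exact p1 p2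
    have fu := Set.finite_singleton u
    rcases not_and_or.1 n1 with f | f <;> rw [Set.not_infinite] at f
    · have k : ((hs A u)ᶜ ∩ (X ∩ Y)).Finite := ((fu.union f).union yB).subset fun g => by
        have := pt g
        simp only [Set.mem_union, Set.mem_inter_iff, Set.mem_compl_iff, Set.mem_singleton_iff]
        tauto
      refine fin A (X ∩ Y) (x1.inter (h.tr _)) ⟨fun p => hu.1.1 ((p.union yA).subset fun g => ?_),
        x2.2.mono fun g => ?_⟩ (fun p => p.2.1 k) (yA.subset fun g => ?_)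
        (fun p => p.1 (k.subset fun g q => ⟨cA g q.1, q.2⟩)) hu.2
      all_goals
        simp only [Set.mem_union, Set.mem_inter_iff, Set.mem_compl_iff, Set.mem_ofPred_eq,
          Set.mem_univ]
        tauto
    · have k : ((hs B u)ᶜ ∩ (X ∪ Y)ᶜ).Finite := ((fu.union f).union yA).subset fun g => by
        have := pt g
        simp only [Set.mem_union, Set.mem_inter_iff, Set.mem_compl_iff, Set.mem_singleton_iff]
        tauto
      refine fin B (X ∪ Y) (x1.union (h.tr _)) ⟨x2.1.mono fun g => ?_,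
        fun p => hu.2.2 ((((p.union yB).union fu).union f).subset fun g => ?_)⟩
        (fun p => p.1.2 (k.subset fun g q => ⟨dAB g q.1, q.2⟩)) (yB.subset fun g => ?_)
        (fun p => p.2 (k.subset fun g q => ⟨cB g q.1, q.2⟩)) (hu.1.mono dAB)
      all_goals
        have := pt g
        simp only [Set.mem_union, Set.mem_inter_iff, Set.mem_compl_iff, Set.mem_ofPred_eq,
          Set.mem_univ, Set.mem_singleton_iff]
        tauto
  refine ⟨ψ.symm, _, pre X x1, by simpa using (nm_pre ψ.toEquiv).2 x2, ?_⟩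
  let f : (α × Bool) × FreeGroup α → (α × Bool) × FreeGroup α := fun p =>
    if p.1 = fl z then (z, ψ p.2) else if p.1 = z then (fl z, mk [z] * (mk [z] * ψ p.2))
    else (p.1, ee A (mk [z]) p.1 * ψ p.2)
  refine lt_of_le_of_lt (Set.ncard_le_ncard_of_injOn (t := E P \ {(z, b)}) f ?_ ?_
    (E_fin h.1).sdiff) (Set.ncard_sdiff_singleton_lt_of_mem hz (E_fin h.1))
  · rintro ⟨t, v⟩ e
    simp only [f]
    split_ifs with p q
    · subst p
      have := (c2 _ _).1 e
      refine ⟨x3 (key _ this), fun q => ?_⟩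
      rw [(Prod.mk.inj q).2] at this
      exact (x4 this).1.2 fA
    · subst q
      refine ⟨x3 ?_, fun q => fl_ne _ (Prod.mk.inj q).1⟩
      have e' : (fl t, mk [t] * v) ∈ E (ψ.toEquiv ⁻¹' X) := by
        have := Cr.symm e
        rwa [cpl, compl_compl] at this
      have := Cr.symm (key _ ((c2 _ _).1 e'))
      rw [cpl, compl_compl, map_mul, whA_z A rfl] at this
      exact this
    · refine ⟨x3 ?_, fun r => q (Prod.mk.inj r).1⟩
      replace e : Cr _ (hs {t} v) := e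
      rw [co1 A (z := z) fun r => (fst_eq r).elim q p] at e
      exact (cr_pre ψ.toEquiv).1 e
  · rintro ⟨t, v⟩ - ⟨t', v'⟩ - e
    have := fl_ne z
    simp only [f] at e
    split_ifs at e <;> obtain ⟨e1, e2⟩ := Prod.mk.inj e
    all_goals first
      | exact absurd e1.symm this
      | exact absurd e1 this
      | exact absurd e1.symm ‹_›
      | exact absurd e1 ‹_›
      | exact Prod.ext (Eq.trans ‹t = fl z› (Eq.symm ‹t' = fl z›)) (ψ.injective e2)
      | exact Prod.ext (Eq.trans ‹t = z› (Eq.symm ‹t' = z›))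
          (ψ.injective (mul_left_cancel (mul_left_cancel e2)))
      | (subst e1; rw [ψ.injective (mul_left_cancel e2)])

end Pool.Agent.H.MP_a41846_al
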