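import Pool.Agent.H.MP_a41846_al.C

namespace Pool.Agent.H.MP_a41846_al

open FreeGroup hiding map_mul map_inv map_one
open Pool.Agent.H.MP_1d2ce7_al

variable {α : Type} [DecidableEq α]

theorem turn {L : List (α × Bool)} (hc : IsCyclicallyReduced L) {P : Set (FreeGroup α)}
    (h : Cl (mk L) P) {A : Set (α × Bool)} (fA : (hs A 1 ∩ Pᶜ).Finite)
    (fB : ((hs A 1)ᶜ ∩ P).Finite) {y s : α × Bool} {c1 c2 : List (α × Bool)}
    (e : L ++ L = c1 ++ y :: s :: c2) (hy : y ∉ A) : fl s ∉ A := by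
  intro hx
  let Z : ℕ → List (α × Bool) := fun n => (List.replicate n L).flatten
  have z1 : ∀ n, mk (Z n) = mk L ^ n := fun n => by rw [← pow_mk]
  have z2 : ∀ n, n ≤ (Z n).length := fun n => by
    simp only [Z, List.length_flatten, List.map_replicate, List.sum_replicate, smul_eq_mul]
    refine Nat.le_mul_of_pos_right _ ?_
    have := congrArg List.length e
    simp at this
    omega
  have r1 : ∀ n, IsReduced (Z n ++ c1 ++ [y]) := fun n => by
    refine sub (hc.flatten_replicate (n + 2)).isReduced (List.IsPrefix.isInfix ⟨s :: c2, ?_⟩)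
    rw [List.replicate_add, List.flatten_append]
    simp [Z, e]
  have r2 : ∀ n, IsReduced (invRev (c2 ++ Z n) ++ [fl s]) := fun n => by
    have : IsReduced ([s] ++ (c2 ++ Z n)) :=
      sub (hc.flatten_replicate (2 + n)).isReduced (List.IsSuffix.isInfix ⟨c1 ++ [y], by
        rw [List.replicate_add, List.flatten_append]
        simp [Z, e]⟩)
    have := red_inv this
    rw [invRev_append] at this
    exact this
  have cn : ∀ {M : List (α × Bool)} {t}, IsReduced (M ++ [t]) → mk (M ++ [t]) ∈ hs {t} 1 :=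
    fun r => hs1.2 (by
      show _ <:+ _
      rw [inv_one, mul_one, tw r]; exact ⟨_, rfl⟩)
  obtain ⟨n, hn⟩ := esc fA (fun n => mk (invRev (c2 ++ Z n) ++ [fl s]))
    (fun n => ⟨_, hx, hs1.1 (cn (r2 n))⟩) (fun n => by rw [tw (r2 n)]; have := z2 n; simp; omega)
  obtain ⟨m, hm⟩ := esc fB (fun n => mk (Z n ++ c1 ++ [y]))
    (fun n a => by
      obtain ⟨t, p, q⟩ := disj a (cn (r1 n))
      exact hy (q ▸ p))
    (fun n => by rw [tw (r1 n)]; have := z2 n; simp; omega)
  apply hm
  have key : mk (Z m ++ c1 ++ [y]) = mk L ^ (m + 2 + n) * mk (invRev (c2 ++ Z n) ++ [fl s]) := by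
    have ew : mk L ^ 2 = mk c1 * (mk [y] * mk [s]) * mk c2 := by
      rw [sq, mul_mk, mul_mk, mul_mk, mul_mk, e]; simp
    simp only [← mul_mk, ← inv_mk, z1, pow_add, mk_fl, ew]
    group
  rw [key]
  exact h.pow (not_not.1 hn) _

theorem fin0 {w : FreeGroup α} {P : Set (FreeGroup α)} (h : Cl w P) {A : Set (α × Bool)}
    (fA : (hs A 1 ∩ Pᶜ).Finite) (fB : ((hs A 1)ᶜ ∩ P).Finite)
    (hA : (∃ z, A = {fl z}) ∨ ((∀ z, fl z ∈ A → z ∈ A) ∧ A.Nonempty ∧ Aᶜ.Nonempty)) : Q w := by
  obtain ⟨L, c, hc, rfl⟩ : ∃ L c, IsCyclicallyReduced L ∧ w = MulAut.conj c (mk L) :=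
    ⟨_, mk (reduceCyclically.conjugator w.toWord),
      reduceCyclically.isCyclicallyReduced (isReduced_toWord (x := w)), by
        rw [MulAut.conj_apply, inv_mk, mul_mk, mul_mk,
          reduceCyclically.conj_conjugator_reduceCyclically, mk_toWord]⟩
  have h' := (Cl.pre (MulAut.conj c).toMonoidHom (MulAut.conj c).injective h).tr c
  have tn := fun y s c1 c2 => turn (A := A) (y := y) (s := s) (c1 := c1) (c2 := c2) hc h'
    ((fA.union (h.1 c)).subset fun g => by simp [mul_assoc]; tauto)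
    ((fB.union (h.1 c)).subset fun g => by simp [mul_assoc]; tauto)
  refine ⟨(MulAut.conj c).symm, ?_⟩
  rw [MulEquiv.symm_apply_apply, tw hc.isReduced]
  by_contra a
  push Not at a
  rcases hA with ⟨z, rfl⟩ | ⟨s, ⟨x, hx⟩, y, hy⟩
  · obtain ⟨c1, c2, e⟩ := List.append_of_mem (a z)
    obtain ⟨M, y, e'⟩ := (L ++ c1).eq_nil_or_concat.resolve_left (by simp [e])
    have e2 : L ++ L = M ++ y :: z :: c2 := by
      conv_lhs => enter [2]; rw [e]
      rw [← List.append_assoc, e']; simp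
    refine tn _ _ _ _ e2 ?_ rfl
    rintro rfl
    have : IsReduced [fl z, z] := sub (hc.flatten_replicate 2).isReduced ⟨M, c2, by simp [e2]⟩
    simpa [fl] using this
  · have : (L ++ L).IsChain fun s t => t ∈ A → s ∈ A :=
      List.isChain_iff_forall_rel_of_append_cons_cons.2 fun p q _ _ e r => by
        by_contra b
        exact tn _ _ _ _ e b (s _ (by rwa [fl_fl]))
    haveI tr : Trans (fun s t => t ∈ A → s ∈ A) (fun s t => t ∈ A → s ∈ A)
      (fun s t => t ∈ A → s ∈ A) := ⟨fun p q r => p (q r)⟩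
    exact hy ((List.pairwise_append.1 (List.isChain_iff_pairwise.1 this)).2.2 _ (a y) _ (a x) hx)

theorem fin1 [Finite α] {w b : FreeGroup α} {P : Set (FreeGroup α)} (h : Cl w P)
    (hn : NM P Set.univ) (hm : ∀ t, ¬ NM P (hs {t} b)) : Q w := by
  wlog e : b = 1 generalizing P b
  · refine this (h.tr b) (by simpa using (nm_pre (Equiv.mulRight b)).2 hn) (fun t a => hm t ?_) rfl
    rw [hs_tr _ 1 b, inv_one, one_mul] at a
    exact (nm_pre _).1 a
  subst e
  let A : Set (α × Bool) := {t | (hs {t} 1 ∩ Pᶜ).Finite}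
  have fA : (hs A 1 ∩ Pᶜ).Finite := hs_fin fun t e => e
  have fB : ((hs A 1)ᶜ ∩ P).Finite := ((hs_fin (S := Aᶜ) (u := 1) (X := P) fun t e => by
    by_contra c
    exact hm t ⟨c, e⟩).insert 1).subset fun g a => (part a.1).imp id fun b => ⟨b, a.2⟩
  by_cases c : ∀ z, fl z ∈ A → z ∈ A
  · refine fin0 h fA fB (Or.inr ⟨c, ?_, ?_⟩)
    · by_contra a
      rw [Set.not_nonempty_iff_eq_empty] at a
      exact hn.1 (fB.subset fun g b => ⟨by simp [a, hs], b.2⟩)
    · by_contra a
      rw [Set.not_nonempty_iff_eq_empty] at a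
      refine hn.2 ((fA.insert 1).subset fun g b => ?_)
      by_cases q : g ∈ hs A 1
      · exact Or.inr ⟨q, b.2⟩
      · exact (part q).imp id fun r => by simp [a, hs] at r
  · push Not at c
    obtain ⟨z, a1, a2⟩ := c
    refine Q.aut (whA A z).symm (fin0 (P := whA A z ⁻¹' P) (A := {fl z})
      (Cl.pre (whA A z).toMonoidHom (whA A z).injective (by simpa using h)) ?_ ?_
      (Or.inl ⟨z, rfl⟩))
    · rw [co2 a1 a2, map_one]; exact (fA.preimage (whA A z).injective.injOn :)
    · rw [co2 a1 a2, map_one]; exact (fB.preimage (whA A z).injective.injOn :)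

theorem main [Finite α] (n : ℕ) : ∀ (w : FreeGroup α) (P : Set (FreeGroup α)), Cl w P →
    NM P Set.univ → (E P).ncard = n → Q w := by
  classical
  induction n using Nat.strong_induction_on with | _ n ih => ?_
  intro w P h hn e
  obtain ⟨R, hR⟩ := far' h.1
  let N : ℕ → Prop := fun n => ∃ W : List (α × Bool), W.length = n ∧ NM P (cone W)
  have n0 : N 0 := ⟨[], rfl, by simpa [cone] using hn⟩
  obtain ⟨W, w1, w2⟩ : N (Nat.findGreatest N R) := Nat.findGreatest_spec (Nat.zero_le R) n0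
  have mx : ∀ t, ¬ NM P (cone (t :: W)) := fun t a => by
    have := Nat.le_findGreatest (P := N) (hR _ a) ⟨t :: W, rfl, a⟩
    simp only [List.length_cons] at this
    omega
  have r : IsReduced W := by
    obtain ⟨g, g1, -⟩ := w2.1.nonempty
    exact sub isReduced_toWord (List.IsSuffix.isInfix g1)
  rcases W with _ | ⟨s, V⟩
  · refine fin1 (b := 1) h hn fun t => ?_
    rw [hs_cone (by simp)]; exact mx t
  have hm : ∀ t ≠ fl s, ¬ NM P (hs {t} (mk (s :: V))) := fun t a => by
    rw [hs_cone (by rw [tw r]; exact red_cons r a), tw r]; exact mx t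
  by_cases c : NM P (hs {fl s} (mk (s :: V)))
  swap
  · exact fin1 h hn fun t => if a : t = fl s then a ▸ c else hm t a
  have hz : (fl s, mk (s :: V)) ∈ E P := ⟨c, by rw [back (tw r), compl_compl]; exact w2⟩
  rcases not_and_or.1 (hm _ (fl_ne (fl s))) with f | f <;> rw [Set.not_infinite] at f
  · have ec : E Pᶜ = E P := Set.ext fun p => ⟨fun a => ⟨by simpa using a.1.cp,
      by simpa using a.2.cp⟩, fun a => ⟨a.1.cp, a.2.cp⟩⟩
    obtain ⟨ψ, P', p1, p2, p3⟩ := move h.cp (ec ▸ hz)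
      (fun t a b => hm t a (by simpa using b.cp)) (by simpa using f)
    exact (Q.aut ψ (ih _ (e ▸ ec ▸ p3) _ _ p1 p2 rfl)).inv
  · obtain ⟨ψ, P', p1, p2, p3⟩ := move h hz hm f
    exact Q.aut ψ (ih _ (e ▸ p3) _ _ p1 p2 rfl)

end Pool.Agent.H.MP_a41846_al
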