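import Pool.Agent.H.MP_a41846_al.D

namespace Pool.Agent.H.MP_a41846_al

open FreeGroup hiding map_mul map_inv map_one
open Pool.Agent.H.MP_1d2ce7_al

variable {α : Type} [DecidableEq α]

theorem near {W : List (α × Bool)} {g : FreeGroup α} (h : g ∈ cone W) (L : List (α × Bool))
    (h' : mk L * g ∉ cone W) : g.toWord.length < L.length + W.length := by
  induction L with
  | nil => rw [← one_eq_mk, one_mul] at h'; exact absurd h h'
  | cons s L ih =>
    rw [show mk (s :: L) = mk [s] * mk L from by rw [mul_mk]; rfl, mul_assoc] at h'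
    rw [List.length_cons]
    by_cases c : mk L * g ∈ cone W
    · have e : (mk L * g).toWord = W := by
        by_contra e
        exact h' (step s c e)
      have := norm_mul_le (mk L)⁻¹ (mk L * g)
      rw [inv_mul_cancel_left, norm_inv_eq] at this
      have h2 := norm_mk_le (L₁ := L)
      simp only [FreeGroup.norm, e] at this h2
      omega
    · have := ih c
      omega

def K (P : Set (FreeGroup α)) : Set (FreeGroup α) :=
  {v | (cone v.toWord ∩ P).Nonempty ∧ (cone v.toWord ∩ Pᶜ).Nonempty}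

theorem K_fin [Finite α] {P : Set (FreeGroup α)} (h : AI P) : (K P).Finite := by
  obtain ⟨R, hR⟩ := far h
  refine (ball_fin R).subset ?_
  rintro v ⟨⟨g, e, g1⟩, g', e', g2⟩
  by_contra c
  exact g2 ((hR _ (not_le.1 c) g' e').2 ((hR _ (not_le.1 c) g e).1 g1))

theorem K_suf {P : Set (FreeGroup α)} {v v' : FreeGroup α} (h : v ∈ K P)
    (e : v'.toWord <:+ v.toWord) : v' ∈ K P :=
  ⟨h.1.mono fun _ a => ⟨List.IsSuffix.trans e a.1, a.2⟩,
    h.2.mono fun _ a => ⟨List.IsSuffix.trans e a.1, a.2⟩⟩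

theorem ai_cone (W : List (α × Bool)) : AI (cone W) := fun x => by
  simpa [mk_toWord] using bad W x.toWord

theorem cut [Finite α] {w : FreeGroup α} {P : Set (FreeGroup α)} (h : Cl w P)
    (hn : NM P Set.univ) {t : α × Bool} {U U' : List (α × Bool)} (r : IsReduced (t :: U'))
    (hU : t :: U <:+ U') (hK : mk (t :: U) ∈ K P)
    (hp : ∀ x : FreeGroup α, x.toWord.length ≤ w.toWord.length →
      (x * mk U ∈ P ↔ x * mk U' ∈ P))
    (f1 : (cone (t :: U) ∩ P).Infinite → (cone (t :: U') ∩ P).Infinite)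
    (f2 : (cone (t :: U) ∩ Pᶜ).Infinite → (cone (t :: U') ∩ Pᶜ).Infinite) :
    ∃ P', Cl w P' ∧ NM P' Set.univ ∧ (K P').ncard < (K P).ncard := by
  classical
  have r1 : IsReduced U' := sub r (List.suffix_cons _ _).isInfix
  have r2 : IsReduced (t :: U) := sub r1 hU.isInfix
  have r3 : IsReduced U := sub r2 (List.suffix_cons _ _).isInfix
  let ρ : FreeGroup α := (mk U)⁻¹ * mk U'
  have e1 : cone (t :: U) = hs {t} (mk U) := by rw [hs_cone (by rwa [tw r3]), tw r3]
  have e2 : cone (t :: U') = hs {t} (mk U') := by rw [hs_cone (by rwa [tw r1]), tw r1]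
  have e3 : ∀ g, g ∈ cone (t :: U) ↔ g * ρ ∈ cone (t :: U') := fun g => by
    rw [e1, e2, hs_tr _ _ (mk U')]; rfl
  have nr : ∀ g x, g ∈ cone (t :: U) → x * g ∉ cone (t :: U) →
      x.toWord.length = w.toWord.length → (g ∈ P ↔ g * ρ ∈ P) := fun g x a b c => by
    rw [e1, hs1] at a b
    have := near a x.toWord (by rwa [mk_toWord, ← mul_assoc])
    simpa only [ρ, mul_assoc, inv_mul_cancel, mul_one] using hp (g * (mk U)⁻¹) (by rw [List.length_singleton] at this; omega)
  have sh : ∀ (g : FreeGroup α) X, g.toWord = X ++ t :: U → (g * ρ).toWord = X ++ t :: U' := by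
    intro g X e
    have r4 : IsReduced (X ++ [t] ++ U') := IsReduced.append_overlap
      (sub (isReduced_toWord (x := g)) (List.IsPrefix.isInfix ⟨U, by simp [e]⟩)) r (by simp)
    have : g * ρ = mk (X ++ [t] ++ U') := by
      rw [← mk_toWord (x := g), e, show X ++ t :: U = X ++ [t] ++ U by simp, ← mul_mk (L₂ := U),
        ← mul_mk (L₂ := U'), mul_assoc, mul_inv_cancel_left]
    rw [this, tw r4]; simp
  let P' : Set (FreeGroup α) :=
    {g | (g ∈ cone (t :: U) ∧ g * ρ ∈ P) ∨ (g ∉ cone (t :: U) ∧ g ∈ P)}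
  have inf : ∀ X : Set (FreeGroup α), (cone (t :: U') ∩ X).Infinite →
      {g | g ∈ cone (t :: U) ∧ g * ρ ∈ X}.Infinite := fun X a =>
    (a.preimage (f := Equiv.mulRight ρ) (by
      rw [(Equiv.mulRight ρ).surjective.range_eq]; exact Set.subset_univ _)).mono fun g b => ⟨(e3 g).2 b.1, b.2⟩
  refine ⟨P', ⟨fun x => (((ai_cone (t :: U) x).union ((h.tr ρ).1 x)).union (h.1 x)).subset
    fun g => ?_, ?_⟩, ⟨?_, ?_⟩, ?_⟩
  · simp only [P', Set.mem_ofPred_eq, Set.mem_union, Set.mem_preimage, Equiv.coe_mulRight]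
    tauto
  · rintro g (⟨a, b⟩ | ⟨a, b⟩) <;> by_cases c : w * g ∈ cone (t :: U)
    · exact Or.inl ⟨c, by rw [mul_assoc]; exact h.2 _ b⟩
    · exact Or.inr ⟨c, h.2 _ ((nr g w a c rfl).2 b)⟩
    · exact Or.inl ⟨c, (nr _ w⁻¹ c (by simpa) (by simp [toWord_inv])).1 (h.2 _ b)⟩
    · exact Or.inr ⟨c, h.2 _ b⟩
  · by_cases c : (cone (t :: U) ∩ P).Infinite
    · exact (inf _ (f1 c)).mono fun g a => ⟨trivial, Or.inl a⟩
    · refine fun f => hn.1 ((f.union (Set.not_infinite.1 c)).subset fun g => ?_)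
      simp only [P', Set.mem_ofPred_eq, Set.mem_union, Set.mem_inter_iff, Set.mem_univ]
      tauto
  · by_cases c : (cone (t :: U) ∩ Pᶜ).Infinite
    · refine (inf _ (f2 c)).mono fun g => ?_
      simp only [P', Set.mem_ofPred_eq, Set.mem_inter_iff, Set.mem_univ, Set.mem_compl_iff]
      tauto
    · refine fun f => hn.2 ((f.union (Set.not_infinite.1 c)).subset fun g => ?_)
      simp only [P', Set.mem_ofPred_eq, Set.mem_union, Set.mem_inter_iff, Set.mem_univ,
        Set.mem_compl_iff]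
      tauto
  have sb : ∀ g, g ∈ cone (t :: U') → g ∈ cone (t :: U) := fun g a =>
    (hU.trans (List.suffix_cons _ _)).trans a
  have m0 : mk (t :: U) ∈ cone (t :: U) := by
    show _ <:+ _
    rw [tw r2]
  refine lt_of_le_of_lt (Set.ncard_le_ncard_of_injOn (t := K P \ {mk (t :: U)})
    (fun v => if v ∈ cone (t :: U) then v * ρ else v) ?_ ?_
    (K_fin h.1).sdiff) (Set.ncard_sdiff_singleton_lt_of_mem hK (K_fin h.1))
  · rintro v ⟨⟨g, a, g1⟩, g', a', g2⟩
    split_ifs with c
    · have : ∀ g ∈ cone v.toWord, g ∈ cone (t :: U) ∧ g * ρ ∈ cone (v * ρ).toWord := by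
        rintro g ⟨Y, b⟩
        obtain ⟨X, c⟩ := c
        refine ⟨⟨Y ++ X, by rw [← b, ← c]; simp⟩, Y, ?_⟩
        rw [sh v X c.symm, sh g (Y ++ X) (by rw [← b, ← c]; simp)]; simp
      refine ⟨⟨⟨_, (this g a).2, (g1.resolve_right fun q => q.1 (this g a).1).2⟩,
        _, (this g' a').2, fun q => g2 (Or.inl ⟨(this g' a').1, q⟩)⟩, fun q => ?_⟩
      have := (e3 v).1 c
      rw [q] at this
      have := List.IsSuffix.length_le this
      have := hU.length_le
      simp [tw r2] at *
      omega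
    · refine ⟨?_, fun q => c (q ▸ m0)⟩
      by_cases d : v.toWord <:+ t :: U
      · exact K_suf hK (by rwa [tw r2])
      have : ∀ g ∈ cone v.toWord, g ∉ cone (t :: U) := fun g p q =>
        (List.suffix_or_suffix_of_suffix p q).elim d c
      exact ⟨⟨g, a, (g1.resolve_left fun q => this g a q.1).2⟩, g', a',
        fun q => g2 (Or.inr ⟨this g' a', q⟩)⟩
  · intro v _ v' _ e
    simp only at e
    split_ifs at e with p q q
    · exact mul_right_cancel e
    · exact absurd (e ▸ sb _ ((e3 v).1 p)) q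
    · exact absurd (e ▸ sb _ ((e3 v').1 q)) p
    · exact e

theorem qcone {w : FreeGroup α} (h : Q w) : ∃ P, Cl w P ∧ NM P Set.univ := by
  obtain ⟨φ, t, e⟩ := h
  wlog c : t.2 = false generalizing w t
  · obtain ⟨P, p1, p2⟩ := this (w := w⁻¹) (fl t) (fun a => e (by
      rw [map_inv, toWord_inv, invRev, List.mem_reverse] at a
      obtain ⟨s, a, b⟩ := List.mem_map.1 a
      rwa [← fl_fl t, ← b, show fl (s.1, !s.2) = s from fl_fl s])) (by simpa [fl] using c)
    exact ⟨Pᶜ, by simpa using p1.cp, p2.cp⟩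
  obtain ⟨a, b⟩ := t
  subst c
  refine ⟨φ ⁻¹' cone [(a, true)], Cl.pre φ.toMonoidHom φ.injective ⟨ai_cone _, fun g p => ?_⟩,
    (nm_pre φ.toEquiv (H := Set.univ)).2 ⟨?_, ?_⟩⟩
  · simpa [mk_toWord] using mono p _ e
  · exact Set.infinite_of_injective_forall_mem (f := fun n : ℕ => of a ^ (n + 1))
      (fun n m e => by simpa using congrArg FreeGroup.norm e) fun n => ⟨trivial, by
        show _ <:+ _
        rw [toWord_of_pow, List.replicate_succ']; exact List.suffix_append _ _⟩
  · exact Set.infinite_of_injective_forall_mem (f := fun n : ℕ => (of a ^ n)⁻¹)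
      (fun n m e => by simpa using congrArg FreeGroup.norm e) fun n => ⟨trivial, fun e => by
        have : (a, true) ∈ ((of a ^ n)⁻¹).toWord := List.IsSuffix.subset e (by simp)
        simp [toWord_inv, invRev] at this⟩

theorem pump [Fintype α] {w : FreeGroup α} (h : Q w) (T : List (List (α × Bool)))
    (hT : ∀ L : List (α × Bool), L.length ≤ w.toWord.length → L ∈ T) : ∃ P, Cl w P ∧
      NM P Set.univ ∧ ∀ v ∈ K P, v.toWord.length ≤ Fintype.card α * 8 * 2 ^ T.length := by
  classical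
  obtain ⟨P, ⟨p1, p2⟩, mn⟩ := (measure fun X => (K X).ncard).wf.has_min
    {X | Cl w X ∧ NM X Set.univ} (qcone h)
  refine ⟨P, p1, p2, fun v hv => not_lt.1 fun c => ?_⟩
  obtain ⟨i, j, hij, e⟩ := Fintype.exists_ne_map_eq_of_card_lt
    (β := (α × Bool) × (Fin T.length → Prop) × Prop × Prop)
    (fun i : Fin v.toWord.length => (v.toWord[i], fun k => mk T[k] * mk (v.toWord.drop (i + 1)) ∈ P,
      (cone (v.toWord.drop i) ∩ P).Infinite, (cone (v.toWord.drop i) ∩ Pᶜ).Infinite))
    (by simp; linarith)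
  wlog l : i < j generalizing i j
  · exact this j i hij.symm e.symm (lt_of_le_of_ne (not_lt.1 l) hij.symm)
  simp only [Prod.mk.injEq] at e
  obtain ⟨e1, e2, e3, e4⟩ := e
  have di : v.toWord.drop i = v.toWord[i] :: v.toWord.drop (i + 1) := List.drop_eq_getElem_cons i.2
  have dj : v.toWord.drop j = v.toWord[i] :: v.toWord.drop (j + 1) := by
    rw [e1]; exact List.drop_eq_getElem_cons j.2
  have rd : ∀ k, IsReduced (v.toWord.drop k) := fun k =>
    sub isReduced_toWord (List.drop_suffix _ _).isInfix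
  obtain ⟨P', q1, q2, q3⟩ := cut p1 p2 (t := v.toWord[i]) (U := v.toWord.drop (j + 1))
    (U' := v.toWord.drop (i + 1)) (di ▸ rd i) (dj ▸ List.drop_suffix_drop_left _ l)
    (K_suf hv (by rw [← dj, tw (rd j)]; exact List.drop_suffix _ _)) (fun x a => by
      obtain ⟨k, hk⟩ := List.mem_iff_get.1 (hT _ a)
      have := congrFun e2 k
      simp only [Fin.getElem_fin, eq_iff_iff] at this
      rw [List.get_eq_getElem] at hk
      rw [hk, mk_toWord] at this
      exact this.symm)
    (by rw [← di, ← dj, e3]; exact id) (by rw [← di, ← dj, e4]; exact id)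
  exact mn P' ⟨q1, q2⟩ q3

end Pool.Agent.H.MP_a41846_al
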