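import Pool.Agent.H.MP_a41846_al.F

namespace Pool.Agent.H.MP_a41846_al

open FreeGroup hiding map_mul map_inv map_one
open Pool.Agent.H.MP_1d2ce7_al

section comb
variable {β : Type}

def words (ls : List β) (n : ℕ) : List (List β) :=
  (fun T => [] :: T.flatMap fun w => ls.map (· :: w))^[n] [[]]

theorem mem_words {ls : List β} (h : ∀ x, x ∈ ls) (n : ℕ) :
    ∀ L : List β, L.length ≤ n → L ∈ words ls n := by
  induction n with
  | zero => intro L e; simpa [words] using e
  | succ n ih =>
    intro L e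
    rw [words, Function.iterate_succ_apply']
    rcases L with _ | ⟨a, L⟩
    · simp
    · exact List.mem_cons_of_mem _ (List.mem_flatMap.2 ⟨L, ih L (by simpa using e),
        List.mem_map.2 ⟨a, h a, rfl⟩⟩)

def subl (L : List β) : List (List β) := L.foldr (fun a T => T ++ T.map (a :: ·)) [[]]

theorem mem_subl (p : β → Bool) (L : List β) : L.filter p ∈ subl L := by
  induction L with
  | nil => simp [subl]
  | cons a L ih =>
    rw [subl, List.foldr_cons, List.filter_cons]
    split_ifs
    · exact List.mem_append_right _ (List.mem_map.2 ⟨_, ih, rfl⟩)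
    · exact List.mem_append_left _ ih

def sfx (D : ℕ) (L : List β) : List β := L.drop (L.length - D)

theorem sfx_suf (D : ℕ) (L : List β) : sfx D L <:+ L := List.drop_suffix _ _

theorem sfx_len (D : ℕ) (L : List β) : (sfx D L).length = min D L.length := by
  simp only [sfx, List.length_drop]; omega

theorem sfx_eq {D : ℕ} {W L : List β} (h : W <:+ L) (e : W.length = D) : sfx D L = W := by
  obtain ⟨V, rfl⟩ := h
  simp [sfx, ← e]

end comb

variable {α : Type} [DecidableEq α]

def good (ls L : List (α × Bool)) (D : ℕ) (X : List (List (α × Bool))) : Prop :=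
  (∀ g ∈ words ls (D + L.length), sfx D (reduce g) ∈ X → sfx D (reduce (L ++ g)) ∈ X) ∧
    (∃ g ∈ words ls D, D ≤ (reduce g).length ∧ sfx D (reduce g) ∈ X) ∧
    ∃ g ∈ words ls D, D ≤ (reduce g).length ∧ sfx D (reduce g) ∉ X

theorem sfx_far {D : ℕ} {g : FreeGroup α} (L : List (α × Bool))
    (h : D + L.length ≤ g.toWord.length) : sfx D (mk L * g).toWord = sfx D g.toWord := by
  have e : (sfx D g.toWord).length = D := by rw [sfx_len]; omega
  refine sfx_eq ?_ e
  by_contra c
  have := near (sfx_suf D g.toWord) L c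
  omega

theorem cone_inf {W : List (α × Bool)} (h : IsReduced W) (e : W ≠ []) : (cone W).Infinite := by
  obtain ⟨t, U, rfl⟩ := List.exists_cons_of_ne_nil e
  have r : ∀ n, IsReduced (List.replicate n t ++ t :: U) := fun n => by
    induction n with
    | zero => exact h
    | succ n ih =>
      rcases n with _ | n
      · exact red_cons h (fl_ne t).symm
      · exact red_cons ih (fl_ne t).symm
  refine Set.infinite_of_injective_forall_mem (f := fun n => mk (List.replicate n t ++ t :: U))
    (fun n m a => ?_) fun n => ?_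
  · have := congrArg (fun x => x.toWord.length) a
    simpa [tw (r _)] using this
  · show _ <:+ _
    rw [tw (r n)]; exact ⟨_, rfl⟩

theorem crit [Fintype α] {ls : List (α × Bool)} (hl : ∀ x, x ∈ ls) (L : List (α × Bool)) {D : ℕ}
    (hD : Fintype.card α * 8 * 2 ^ (words ls L.length).length < D) :
    Q (mk L) ↔ ∃ X ∈ subl (words ls D), good ls L D X := by
  classical
  constructor
  · intro h
    obtain ⟨P, p1, p2, p3⟩ := pump h (words ls L.length) fun M a =>
      mem_words hl _ _ (a.trans (norm_mk_le (L₁ := L)))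
    have k : ∀ x : FreeGroup α,
        sfx D x.toWord ∈ (words ls D).filter (fun g => decide (mk g ∈ P)) ↔ x ∈ P := fun x => by
      rw [List.mem_filter, decide_eq_true_iff,
        and_iff_right (mem_words hl _ _ (by rw [sfx_len]; omega))]
      by_cases c : x.toWord.length ≤ D
      · rw [sfx, Nat.sub_eq_zero_of_le c, List.drop_zero, mk_toWord]
      have r : IsReduced (sfx D x.toWord) := sub isReduced_toWord (sfx_suf _ _).isInfix
      have m1 : x ∈ cone (mk (sfx D x.toWord)).toWord := by rw [tw r]; exact sfx_suf _ _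
      have m2 : mk (sfx D x.toWord) ∈ cone (mk (sfx D x.toWord)).toWord := List.suffix_refl _
      by_contra a
      have := p3 (mk (sfx D x.toWord)) (by
        by_cases b : x ∈ P
        · exact ⟨⟨_, m1, b⟩, _, m2, fun q => a (iff_of_true q b)⟩
        · exact ⟨⟨_, m2, by_contra fun q => a (iff_of_false q b)⟩, _, m1, b⟩)
      rw [tw r, sfx_len] at this
      omega
    have nt : ∀ Y : Set (FreeGroup α), Y.Infinite → ∃ x ∈ Y, ∃ g ∈ words ls D,
        D ≤ (reduce g).length ∧ sfx D (reduce g) = sfx D x.toWord := fun Y a => by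
      obtain ⟨x, x1, x2⟩ := a.exists_notMem_finite (ball_fin D)
      have r : IsReduced (sfx D x.toWord) := sub isReduced_toWord (sfx_suf _ _).isInfix
      have e : (sfx D x.toWord).length = D := by
        rw [sfx_len]; simp only [Set.mem_ofPred_eq] at x2; omega
      exact ⟨x, x1, _, mem_words hl _ _ e.le, by rw [r.reduce_eq, e],
        by rw [r.reduce_eq]; exact sfx_eq (List.suffix_refl _) e⟩
    refine ⟨_, mem_subl (fun g => decide (mk g ∈ P)) _, fun g _ a => ?_, ?_, ?_⟩
    · exact (k (mk L * mk g)).2 (p1.2 _ ((k (mk g)).1 a))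
    · obtain ⟨x, x1, g, g1, g2, g3⟩ := nt _ p2.1
      exact ⟨g, g1, g2, g3 ▸ (k x).2 x1.2⟩
    · obtain ⟨x, x1, g, g1, g2, g3⟩ := nt _ p2.2
      exact ⟨g, g1, g2, g3 ▸ fun q => x1.2 ((k x).1 q)⟩
  · rintro ⟨X, -, h1, ⟨g, -, g1, g2⟩, g', -, g3, g4⟩
    have ci : ∀ g : List (α × Bool), D ≤ (reduce g).length →
        {x : FreeGroup α | sfx D x.toWord = sfx D (reduce g)}.Infinite := fun g a => by
      have e : (sfx D (reduce g)).length = D := by rw [sfx_len]; omega
      exact (cone_inf (sub (isReduced_toWord (x := mk g)) (sfx_suf D _).isInfix) (fun q => by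
        rw [toWord_mk] at q; rw [q] at e; simp at e; omega)).mono fun x b => sfx_eq b e
    refine main _ _ {x | sfx D x.toWord ∈ X} ⟨fun x => (ball_fin (D + x.toWord.length)).subset
      fun y a => (not_lt.1 fun b => a ?_ : y.toWord.length ≤ D + x.toWord.length), fun y a => ?_⟩ ⟨(ci g g1).mono fun x a =>
        ⟨trivial, by rw [Set.mem_ofPred_eq, a]; exact g2⟩, (ci g' g3).mono fun x a =>
        ⟨trivial, by rw [Set.mem_compl_iff, Set.mem_ofPred_eq, a]; exact g4⟩⟩ rfl
    · have := sfx_far x.toWord b.le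
      rw [mk_toWord] at this
      simp only [Set.mem_ofPred_eq, this]
    · by_cases c : y.toWord.length ≤ D + L.length
      · have := h1 _ (mem_words hl _ _ c) (by rwa [reduce_toWord])
        rwa [← toWord_mk, ← mul_mk, mk_toWord] at this
      · rwa [Set.mem_ofPred_eq, sfx_far L (not_le.1 c).le]

def PP (v : FreeGroup α) : Prop := ∃ a, (a, true) ∈ v.toWord ∧ (a, false) ∉ v.toWord

def T3 (w : FreeGroup α) : Prop := ∃ φ : MulAut (FreeGroup α), PP (φ w)

theorem restr [Finite α] {β : Type} [DecidableEq β] (j : FreeGroup α →* FreeGroup β)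
    (hj : Function.Injective j) {m : FreeGroup α} (h : PP (j m)) : Q m := by
  obtain ⟨a, h1, h2⟩ := h
  obtain ⟨c1, c2, e⟩ := List.append_of_mem h1
  have r : IsReduced ((a, true) :: c2) := sub isReduced_toWord (List.IsSuffix.isInfix ⟨c1, e.symm⟩)
  have r' : IsReduced c2 := sub r (List.suffix_cons _ _).isInfix
  have c0 : Cl (j m) (cone [(a, true)]) :=
    ⟨ai_cone _, fun g p => by simpa [mk_toWord] using mono p _ h2⟩
  have c : Cl (j m) (cone ((a, true) :: c2)) := by
    have := c0.tr (mk c2)⁻¹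
    have e := hs_cone (t := (a, true)) (u := mk c2) (by rwa [tw r'])
    rw [tw r'] at e
    rw [← e]
    convert this using 1
    ext g; exact hs1
  have c' := Cl.pre j hj c
  have n1 : (1 : FreeGroup α) ∉ j ⁻¹' cone ((a, true) :: c2) := by simp [cone]
  have m1 : m ∈ j ⁻¹' cone ((a, true) :: c2) := ⟨c1, e.symm⟩
  have inj : Function.Injective fun n : ℕ => m ^ n := injective_pow_iff_not_isOfFinOrder.2
    (not_isOfFinOrder_of_isMulTorsionFree fun q => n1 (q ▸ m1))
  exact main _ _ _ c' ⟨Set.infinite_of_injective_forall_mem (f := fun n : ℕ => m ^ n * m)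
    (fun _ _ q => inj (mul_right_cancel q)) fun n => ⟨trivial, c'.pow m1 n⟩,
    Set.infinite_of_injective_forall_mem (f := fun n : ℕ => (m ^ n)⁻¹)
    (fun _ _ q => inj (inv_injective q)) fun n => ⟨trivial, fun q => n1 (by
      simpa using c'.pow q n)⟩⟩ rfl

theorem flip {w : FreeGroup α} {t : α × Bool} (h : t ∉ w.toWord) (h' : fl t ∈ w.toWord) :
    T3 w := by
  obtain ⟨a, b⟩ := t
  cases b
  · exact ⟨1, a, h', h⟩
  let n : FreeGroup α →* FreeGroup α := lift fun a => (of a)⁻¹
  have n1 : n.comp n = MonoidHom.id _ := by ext a; simp [n]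
  have n2 : ∀ L : List (α × Bool), n (mk L) = mk (L.map fl) := fun L => by
    induction L with
    | nil => exact map_one n
    | cons s L ih =>
      rw [List.map_cons, show mk (s :: L) = mk [s] * mk L from rfl, map_mul, ih,
        show mk (fl s :: L.map fl) = mk [fl s] * mk (L.map fl) from rfl]
      obtain ⟨a, b⟩ := s
      cases b <;> simp [n, fl, of, invRev]
  have n3 : (n w).toWord = w.toWord.map fl := by
    rw [← mk_toWord (x := w), n2, tw, mk_toWord]
    exact (List.isChain_map _).2 ((isReduced_toWord (x := w)).imp fun p q r s => by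
      simp only [fl] at s ⊢; rw [r s])
  refine ⟨MonoidHom.toMulEquiv n n n1 n1, a, ?_, fun q => h ?_⟩
  · show _ ∈ (n w).toWord
    rw [n3]; exact List.mem_map.2 ⟨_, h', rfl⟩
  · replace q : _ ∈ (n w).toWord := q
    rw [n3] at q
    obtain ⟨s, q, e⟩ := List.mem_map.1 q
    rwa [← fl_fl s, e] at q

theorem tw_map {β : Type} [DecidableEq β] {e : α → β} (he : Function.Injective e)
    (x : FreeGroup α) : (map e x).toWord = x.toWord.map fun t => (e t.1, t.2) := by
  rw [← mk_toWord (x := x), map.mk, tw, mk_toWord]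
  exact (List.isChain_map _).2 ((isReduced_toWord (x := x)).imp fun p q r s => r (he s))

theorem desc {k : ℕ} (i : Fin (k + 1)) (L : List (Fin (k + 1) × Bool)) (h : ∀ t ∈ L, t.1 ≠ i) :
    ∃ M : List (Fin k × Bool), L = M.map fun t => (i.succAbove t.1, t.2) := by
  induction L with
  | nil => exact ⟨[], rfl⟩
  | cons s L ih =>
    obtain ⟨M, rfl⟩ := ih fun t a => h t (List.mem_cons_of_mem _ a)
    obtain ⟨j, hj⟩ := Fin.exists_succAbove_eq (h s List.mem_cons_self)
    exact ⟨(j, s.2) :: M, by simp [hj]⟩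

theorem extd {k : ℕ} (i : Fin (k + 1)) {m : FreeGroup (Fin k)} (h : T3 m) :
    T3 (map i.succAbove m) := by
  obtain ⟨φ, a, h1, h2⟩ := h
  let ex : MulAut (FreeGroup (Fin k)) → FreeGroup (Fin (k + 1)) →* FreeGroup (Fin (k + 1)) :=
    fun ψ => lift (Fin.insertNth (α := fun _ => FreeGroup (Fin (k + 1))) i (of i)
      fun j => map i.succAbove (ψ (of j)))
  have e1 : ∀ ψ x, ex ψ (map i.succAbove x) = map i.succAbove (ψ x) := fun ψ x => by
    have : (ex ψ).comp (map i.succAbove) = (map i.succAbove).comp ψ.toMonoidHom := by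
      ext j; simp [ex]
    exact DFunLike.congr_fun this x
  have e2 : ∀ ψ χ, ψ * χ = 1 → (ex ψ).comp (ex χ) = MonoidHom.id _ := fun ψ χ e => by
    ext j
    induction j using Fin.succAboveCases i with
    | x => simp [ex]
    | p j =>
      rw [MonoidHom.comp_apply, ← map.of, e1, e1, ← MulAut.mul_apply, e]; rfl
  refine ⟨MonoidHom.toMulEquiv (ex φ) (ex φ⁻¹) (e2 _ _ (by simp)) (e2 _ _ (by simp)),
    i.succAbove a, ?_⟩
  show _ ∈ (ex φ _).toWord ∧ _ ∉ (ex φ _).toWord
  rw [e1, tw_map Fin.succAbove_right_injective]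
  refine ⟨List.mem_map.2 ⟨_, h1, rfl⟩, fun q => h2 ?_⟩
  obtain ⟨⟨s, b⟩, q, e⟩ := List.mem_map.1 q
  obtain ⟨e3, e4⟩ := Prod.mk.inj e
  rwa [← Fin.succAbove_right_injective e3, ← e4]

theorem T3.aut {w : FreeGroup α} (ψ : MulAut (FreeGroup α)) (h : T3 (ψ w)) : T3 w :=
  let ⟨φ, e⟩ := h; ⟨φ * ψ, e⟩

theorem tri {k : ℕ} {m : FreeGroup (Fin (k + 1))} (h : Q m) : T3 m ∨
    ∃ (φ : MulAut _) (i : Fin (k + 1)) (M : List (Fin k × Bool)), φ m = map i.succAbove (mk M) := by
  obtain ⟨φ, t, e⟩ := h
  by_cases c : fl t ∈ (φ m).toWord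
  · exact Or.inl ((flip e c).aut φ)
  obtain ⟨M, hM⟩ := desc t.1 (φ m).toWord fun s a b => (fst_eq b).elim (fun q => e (q ▸ a))
    fun q => c (q ▸ a)
  exact Or.inr ⟨φ, t.1, M, by rw [map.mk, ← hM, mk_toWord]⟩

theorem map_inj {k : ℕ} (i : Fin (k + 1)) : Function.Injective (map i.succAbove) :=
  map_injective Fin.succAbove_right_injective

theorem down {β : Type} [DecidableEq β] (k : ℕ) : ∀ (m : FreeGroup (Fin k))
    (j : FreeGroup (Fin k) →* FreeGroup β), Function.Injective j → PP (j m) → T3 m := by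
  induction k with
  | zero => exact fun m j a b => let ⟨_, t, _⟩ := restr j a b; t.1.elim0
  | succ k ih =>
    intro m j a b
    refine (tri (restr j a b)).elim id fun ⟨φ, i, M, e⟩ => T3.aut φ (e ▸ extd i (ih _
      ((j.comp φ.symm.toMonoidHom).comp (map i.succAbove))
      ((a.comp φ.symm.injective).comp (map_inj i)) ?_))
    simpa [← e] using b

theorem neg_iff {k : ℕ} (w : FreeGroup (Fin (k + 1))) : ¬ T3 w ↔ ¬ Q w ∨
    ∃ φ : MulAut _, ∃ (i : Fin (k + 1)) (M : List (Fin k × Bool)),
      φ w = map i.succAbove (mk M) ∧ ¬ T3 (mk M) := by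
  constructor
  · intro h
    by_cases c : Q w
    · obtain ⟨φ, i, M, e⟩ := (tri c).resolve_left h
      exact Or.inr ⟨φ, i, M, e, fun q => h (T3.aut φ (e ▸ extd i q))⟩
    · exact Or.inl c
  · rintro (h | ⟨φ, i, M, e, h⟩) ⟨ψ, q⟩
    · obtain ⟨a, -, q⟩ := q
      exact h ⟨ψ, _, q⟩
    · refine h (down k _ ((ψ.toMonoidHom.comp φ.symm.toMonoidHom).comp (map i.succAbove))
        ((ψ.injective.comp φ.symm.injective).comp (map_inj i)) ?_)
      simpa [← e] using q

end Pool.Agent.H.MP_a41846_al
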