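import Pool.Agent.H.MP_a41846_al.G
import Pool.Agent.Lib.helper21.CPred

namespace Pool.Agent.H.MP_a41846_al

open FreeGroup hiding map_mul map_inv map_one
open Pool.Agent.Lib.helper21.CPred Primrec

section pr
variable {β γ : Type} [Primcodable β] [Primcodable γ]

theorem p_mem [DecidableEq β] {f : γ → β} {g : γ → List β} (hf : Primrec f) (hg : Primrec g) :
    PrimrecPred fun x => f x ∈ g x :=
  ((PrimrecRel.exists_mem_list (R := fun a b : β => a = b) Primrec.eq).comp hg hf).of_eq
    fun x => by simp

theorem p_all {R : γ → β → Prop} {g : γ → List β} (hg : Primrec g)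
    (hR : PrimrecPred fun z : β × γ => R z.2 z.1) : PrimrecPred fun x => ∀ a ∈ g x, R x a :=
  (PrimrecRel.forall_mem_list (R := fun a x => R x a) hR).comp hg Primrec.id

theorem p_ex {R : γ → β → Prop} {g : γ → List β} (hg : Primrec g)
    (hR : PrimrecPred fun z : β × γ => R z.2 z.1) : PrimrecPred fun x => ∃ a ∈ g x, R x a :=
  (PrimrecRel.exists_mem_list (R := fun a x => R x a) hR).comp hg Primrec.id

theorem p_words (ls : List β) : Primrec (words ls) :=
  nat_iterate Primrec.id (const [[]]) (h := fun _ T => [] :: T.flatMap fun w => ls.map (· :: w))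
    (list_cons.comp (const []) (list_flatMap snd
      (list_map (const ls) (list_cons.comp snd (snd.comp fst)).to₂).to₂)).to₂

theorem p_subl : Primrec (subl (β := β)) :=
  list_foldr Primrec.id (const [[]]) (h := fun _ p => p.2 ++ p.2.map (p.1 :: ·))
    (list_append.comp (snd.comp snd) (list_map (snd.comp snd)
      (list_cons.comp (fst.comp (snd.comp fst)) snd).to₂)).to₂

theorem p_sfx {f : γ → ℕ} {g : γ → List β} (hf : Primrec f) (hg : Primrec g) :
    Primrec fun x => sfx (f x) (g x) :=
  list_drop.comp (nat_sub.comp (list_length.comp hg) hf) hg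

theorem p_red [DecidableEq β] : Primrec (reduce (α := β)) := by
  have : Primrec fun L : List (β × Bool) => L.foldr (fun t (M : List (β × Bool)) =>
      (List.casesOn M [t] fun s N => if t.1 = s.1 ∧ t.2 = !s.2 then N else t :: s :: N :
        List (β × Bool))) [] :=
    list_foldr Primrec.id (const []) (h := fun _ (p : (β × Bool) × List (β × Bool)) =>
      (List.casesOn p.2 [p.1] fun s N => if p.1.1 = s.1 ∧ p.1.2 = !s.2 then N else p.1 :: s :: N :
        List (β × Bool)))
    (list_casesOn (snd.comp snd) (list_cons.comp (fst.comp snd) (const []))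
      (h := fun (a : List (β × Bool) × (β × Bool) × List (β × Bool)) q =>
        if a.2.1.1 = q.1.1 ∧ a.2.1.2 = !q.1.2 then q.2 else a.2.1 :: q.1 :: q.2)
      (Primrec.ite (PrimrecPred.and
        (Primrec.eq.comp (fst.comp (fst.comp (snd.comp fst))) (fst.comp (fst.comp snd)))
        (Primrec.eq.comp (snd.comp (fst.comp (snd.comp fst)))
          (Primrec.not.comp (snd.comp (fst.comp snd))))) (snd.comp snd)
        (list_cons.comp (fst.comp (snd.comp fst))
          (list_cons.comp (fst.comp snd) (snd.comp snd)))).to₂).to₂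
  refine this.of_eq fun L => ?_
  induction L with
  | nil => rfl
  | cons t L ih => rw [List.foldr_cons, ih, reduce.cons]

theorem re_ex [Inhabited β] {p : γ → β → Prop} (h : ComputablePred fun z : γ × β => p z.1 z.2) :
    REPred fun a => ∃ b, p a b :=
  (cre (p := fun a n => p a ((Encodable.decode (α := β) n).getD default))
    (ccomp h (Computable.fst.pair (Computable.option_getD
      (Computable.decode.comp Computable.snd) (Computable.const default))))).of_eq fun a =>
    ⟨fun ⟨_, e⟩ => ⟨_, e⟩, fun ⟨b, e⟩ => ⟨Encodable.encode b, by simpa using e⟩⟩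

theorem p_good [DecidableEq β] (ls : List (β × Bool)) {L : γ → List (β × Bool)} {D : γ → ℕ}
    {X : γ → List (List (β × Bool))} (hL : Primrec L) (hD : Primrec D) (hX : Primrec X) :
    PrimrecPred fun x => good ls (L x) (D x) (X x) := by
  have a : PrimrecPred fun z : List (β × Bool) × γ => sfx (D z.2) (reduce z.1) ∈ X z.2 :=
    p_mem (p_sfx (hD.comp snd) (p_red.comp fst)) (hX.comp snd)
  have b : PrimrecPred fun z : List (β × Bool) × γ => D z.2 ≤ (reduce z.1).length :=
    nat_le.comp (hD.comp snd) (list_length.comp (p_red.comp fst))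
  have c : PrimrecPred fun z : List (β × Bool) × γ =>
      sfx (D z.2) (reduce (L z.2 ++ z.1)) ∈ X z.2 :=
    p_mem (p_sfx (hD.comp snd) (p_red.comp (list_append.comp (hL.comp snd) fst))) (hX.comp snd)
  exact (p_all ((p_words ls).comp (nat_add.comp hD (list_length.comp hL)))
    ((a.not.or c).of_eq fun z => imp_iff_not_or.symm)).and
    ((p_ex ((p_words ls).comp hD) (b.and a)).and (p_ex ((p_words ls).comp hD) (b.and a.not)))

theorem p_Q [DecidableEq β] [Fintype β] : PrimrecPred fun L : List (β × Bool) => Q (mk L) := by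
  obtain ⟨ls, hl⟩ : ∃ ls : List (β × Bool), ∀ x, x ∈ ls := ⟨Finset.univ.toList, by simp⟩
  have hD : Primrec fun L : List (β × Bool) =>
      Fintype.card β * 8 * 2 ^ (words ls L.length).length + 1 :=
    succ.comp (nat_mul.comp (const _) ((Primrec₂.unpaired'.1 Nat.Primrec.pow).comp (const 2)
      (list_length.comp ((p_words ls).comp list_length))))
  exact (p_ex (p_subl.comp ((p_words ls).comp hD)) (p_good ls snd (hD.comp snd) fst)).of_eq
    fun L => (crit hl L (Nat.lt_succ_self _)).symm

end pr

abbrev Wd (r : ℕ) := List (Fin r × Bool)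

def sb {r : ℕ} (f : Fin r → Wd r) (L : Wd r) : Wd r :=
  L.flatMap fun t => cond t.2 (f t.1) (invRev (f t.1))

theorem mk_sb {r : ℕ} (f : Fin r → Wd r) (L : Wd r) :
    mk (sb f L) = lift (fun i => mk (f i)) (mk L) := by
  induction L with
  | nil => exact (map_one (lift fun i => mk (f i))).symm
  | cons t L ih =>
    rw [show mk (t :: L) = mk [t] * mk L from rfl, map_mul, ← ih, sb, List.flatMap_cons, ← mul_mk]
    obtain ⟨a, b⟩ := t
    cases b <;> simp [sb]

def Ok {r : ℕ} (c : (Fin r → Wd r) × (Fin r → Wd r)) : Prop :=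
  ∀ i ∈ List.finRange r, reduce (sb c.1 (c.2 i)) = [(i, true)] ∧
    reduce (sb c.2 (c.1 i)) = [(i, true)]

theorem cert {r : ℕ} (p : FreeGroup (Fin r) → Prop) (L : Wd r) :
    (∃ φ : MulAut (FreeGroup (Fin r)), p (φ (mk L))) ↔ ∃ c, Ok c ∧ p (mk (sb c.1 L)) := by
  constructor
  · rintro ⟨φ, h⟩
    have : ∀ (ψ : MulAut (FreeGroup (Fin r))) M,
        mk (sb (fun i => (ψ (of i)).toWord) M) = ψ (mk M) := fun ψ M => by
      have : lift (fun i => mk (ψ (of i)).toWord) = ψ.toMonoidHom := by
        ext i; simp [mk_toWord]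
      rw [mk_sb, this]; rfl
    refine ⟨(fun i => (φ (of i)).toWord, fun i => (φ.symm (of i)).toWord), fun i _ => ?_,
      by rwa [this]⟩
    simp only [← toWord_mk, this, mk_toWord, MulEquiv.apply_symm_apply, MulEquiv.symm_apply_apply,
      toWord_of, and_self]
  · rintro ⟨⟨f, g⟩, h, e⟩
    have : ∀ f g : Fin r → Wd r, (∀ i, reduce (sb f (g i)) = [(i, true)]) →
        (lift fun i => mk (f i)).comp (lift fun i => mk (g i)) = MonoidHom.id _ := fun f g a => by
      ext i
      rw [MonoidHom.comp_apply, lift_apply_of, ← mk_sb]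
      exact toWord_injective (a i)
    exact ⟨MonoidHom.toMulEquiv (lift fun i => mk (f i)) (lift fun i => mk (g i))
      (this _ _ fun i => (h i (List.mem_finRange i)).2)
      (this _ _ fun i => (h i (List.mem_finRange i)).1), by rwa [mk_sb] at e⟩

theorem p_sb {r : ℕ} {γ : Type} [Primcodable γ] {f : γ → Fin r → Wd r} {L : γ → Wd r}
    (hf : Primrec f) (hL : Primrec L) : Primrec fun x => sb (f x) (L x) := by
  have a : Primrec fun z : γ × Fin r × Bool => f z.1 z.2.1 :=
    fin_app.comp (hf.comp fst) (fst.comp snd)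
  exact list_flatMap hL (Primrec.cond (snd.comp snd) a (list_reverse.comp (list_map a
    ((dom_finite fun g : Fin r × Bool => (g.1, !g.2)).comp snd).to₂))).to₂

theorem p_ok {r : ℕ} : PrimrecPred (Ok (r := r)) :=
  p_all (const _) ((Primrec.eq.comp (p_red.comp (p_sb (fst.comp snd)
    (fin_app.comp (snd.comp snd) fst))) ((dom_finite fun i : Fin r => [(i, true)]).comp fst)).and
    (Primrec.eq.comp (p_red.comp (p_sb (snd.comp snd) (fin_app.comp (fst.comp snd) fst)))
    ((dom_finite fun i : Fin r => [(i, true)]).comp fst)))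

theorem dec (r : ℕ) : ComputablePred fun L : Wd r => T3 (mk L) := by
  induction r with
  | zero =>
    exact (ComputablePred.computable_iff.2 ⟨fun _ => false, Computable.const _, rfl⟩).of_eq
      fun L => ⟨fun h => by simp at h, fun ⟨_, a, _⟩ => a.elim0⟩
  | succ r ih =>
    refine ComputablePred.computable_iff_re_compl_re'.2 ⟨?_, ?_⟩
    · refine (re_ex (p := fun L (c : (Fin (r + 1) → Wd (r + 1)) × (Fin (r + 1) → Wd (r + 1))) =>
        Ok c ∧ ∃ a ∈ List.finRange (r + 1), (a, true) ∈ reduce (sb c.1 L) ∧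
          (a, false) ∉ reduce (sb c.1 L)) (cprim ((p_ok.comp snd).and (p_ex (const _) ?_)))).of_eq
        fun L => ((cert PP L).trans (by simp [PP])).symm
      have a := p_red.comp (p_sb (r := r + 1) (γ := Fin (r + 1) × Wd (r + 1) ×
        (Fin (r + 1) → Wd (r + 1)) × (Fin (r + 1) → Wd (r + 1)))
        (fst.comp (snd.comp snd)) (fst.comp snd))
      exact (p_mem (fst.pair (const true)) a).and (p_mem (fst.pair (const false)) a).not
    · refine (re_ex (p := fun L (c : ((Fin (r + 1) → Wd (r + 1)) × (Fin (r + 1) → Wd (r + 1))) ×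
        Fin (r + 1) × Wd r) => ¬ Q (mk L) ∨ (Ok c.1 ∧ reduce (sb c.1.1 L) =
          reduce (c.2.2.map fun t => (c.2.1.succAbove t.1, t.2))) ∧ ¬ T3 (mk c.2.2))
        (cor (cprim (p_Q.comp fst).not) (cand (cprim ((p_ok.comp (fst.comp snd)).and
          (Primrec.eq.comp (p_red.comp (p_sb (fst.comp (fst.comp snd)) fst))
            (p_red.comp (list_map (snd.comp (snd.comp snd))
              ((dom_finite fun g : Fin (r + 1) × Fin r × Bool =>
                (g.1.succAbove g.2.1, g.2.2)).comp
                ((fst.comp (snd.comp (snd.comp fst))).pair snd)).to₂)))))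
          (ccomp ih.not (snd.comp (snd.comp snd)).to_comp)))).of_eq fun L => ?_
      rw [neg_iff, cert (fun x => ∃ (i : Fin (r + 1)) (M : Wd r),
        x = map i.succAbove (mk M) ∧ ¬ T3 (mk M)) L]
      constructor
      · rintro ⟨⟨c, i, M⟩, h | ⟨⟨h1, h2⟩, h3⟩⟩
        · exact Or.inl h
        · exact Or.inr ⟨c, h1, i, M, toWord_injective h2, h3⟩
      · rintro (h | ⟨c, h1, i, M, h2, h3⟩)
        · exact ⟨default, Or.inl h⟩
        · exact ⟨(c, i, M), Or.inr ⟨⟨h1, congrArg toWord h2⟩, h3⟩⟩

end Pool.Agent.H.MP_a41846_al
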